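import Pool.Agent.GoReal.Defs

/-!
# Quadratic extensions: dimension formula and norms
-/

namespace Pool.Agent.GoReal

open Pool.Agent.Hhelper2 Pool.Agent.Hhelper2.QuadExt Pool.Agent.Hhelper2.Tower Pool.Agent.KRad
open Additive Module

universe u

variable {K E : Type u} [Field K] [Field E] {a : SqClass K}

theorem res_zero_iff (q : QE K E a) (x : VV K) : lin q.res x = 0 ↔ x = 0 ∨ x = ofMul a :=
  q.res_one (toMul x)

theorem nm_res' (q : QE K E a) (x : VV K) : lin q.nm (lin q.res x) = 0 := q.nm_res (toMul x)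

theorem ker_nm' (q : QE K E a) {y : VV E} (hy : lin q.nm y = 0) : ∃ x : VV K, y = lin q.res x := by
  obtain ⟨t, ht⟩ := q.ker_nm (toMul y) hy
  exact ⟨ofMul t, ht⟩

theorem range_nm' (q : QE K E a) {y : VV K} (hy : Sp K (ofMul a) y) : ∃ z : VV E, lin q.nm z = y := by
  obtain ⟨t, ht⟩ := q.range_nm (toMul y) hy
  exact ⟨ofMul t, ht⟩

theorem nm_split' (q : QE K E a) (z : VV E) : Sp K (ofMul a) (lin q.nm z) := q.nm_split (toMul z)

theorem proj' (q : QE K E a) {x : VV K} {y : VV E} (h : Sp E (lin q.res x) y) :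
    Sp K x (lin q.nm y) := q.proj (toMul x) (toMul y) h

theorem principle' (q : QE K E a) {x : VV K} {y : VV E} (h : Sp K x (lin q.nm y)) :
    ∃ t : VV K, Sp E (lin q.res x) (y + lin q.res t) := by
  obtain ⟨t, ht⟩ := q.principle (toMul x) (toMul y) h
  exact ⟨ofMul t, ht⟩

/-- The number of square classes of a quadratic extension. -/
theorem finrank_ext (h2 : (2 : K) ≠ 0) [Finite (SqClass K)] (q : QE K E a) (ha : a ≠ 1) :
    dd E + sv K (ofMul a) + 1 = 2 * dd K := by
  have := finite_ext q
  obtain ⟨Q, _, _, _, β, hβ, symm, -⟩ := exists_symbol K h2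
  set r : VV K →ₗ[ZMod 2] VV E := lin q.res with hr
  set N : VV E →ₗ[ZMod 2] VV K := lin q.nm with hN
  have f1 := LinearMap.finrank_range_add_finrank_ker N
  have f2 := LinearMap.finrank_range_add_finrank_ker r
  have e1 : LinearMap.range N = LinearMap.ker (β (ofMul a)) := by
    ext y
    constructor
    · rintro ⟨z, rfl⟩
      exact (hβ _ _).2 (nm_split' q z)
    · intro h
      exact range_nm' q ((hβ _ _).1 h)
  have e2 : LinearMap.ker N = LinearMap.range r := by
    ext y
    constructor
    · intro h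
      obtain ⟨t, rfl⟩ := ker_nm' q h
      exact ⟨t, rfl⟩
    · rintro ⟨z, rfl⟩
      exact nm_res' q z
  have e3 : LinearMap.ker r = Submodule.span (ZMod 2) {(ofMul a : VV K)} := by
    ext y
    rw [Submodule.mem_span_singleton]
    constructor
    · intro h
      rcases (res_zero_iff q y).1 h with h3 | h3
      · exact ⟨0, by rw [zero_smul, h3]⟩
      · exact ⟨1, by rw [one_smul, h3]⟩
    · rintro ⟨c, rfl⟩
      apply (res_zero_iff q _).2
      rcases zmod2_cases c with h3 | h3
      · left; rw [h3, zero_smul]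
      · right; rw [h3, one_smul]
  have e4 : finrank (ZMod 2) (LinearMap.ker r) = 1 := by
    rw [e3]
    exact finrank_span_singleton ha
  have e5 := sv_add_finrank_ker β hβ (ofMul a)
  rw [e1, e2] at f1
  rw [e4] at f2
  have g1 : dd E = finrank (ZMod 2) (VV E) := rfl
  have g2 : dd K = finrank (ZMod 2) (VV K) := rfl
  omega

/-- The rank of a norm. -/
theorem sv_nm_le (h2 : (2 : K) ≠ 0) [Finite (SqClass K)] (q : QE K E a) (y : VV E) :
    sv K (lin q.nm y) ≤ sv E y := by
  have := finite_ext q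
  obtain ⟨Q, _, _, _, β, hβ, symm, -⟩ := exists_symbol K h2
  obtain ⟨Q', _, _, _, β', hβ', symm', -⟩ := exists_symbol E q.two_ne
  have h1 := sv_add_finrank_ker β hβ (lin q.nm y)
  have h3 := sv_eq_finrank_range β' hβ' y
  let g : VV K →ₗ[ZMod 2] Q' := (β' y).comp (lin q.res)
  have h4 := LinearMap.finrank_range_add_finrank_ker g
  have h5 : finrank (ZMod 2) (LinearMap.range g) ≤ finrank (ZMod 2) (LinearMap.range (β' y)) := by
    apply Submodule.finrank_mono
    rintro _ ⟨z, rfl⟩
    exact ⟨lin q.res z, rfl⟩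
  have h6 : finrank (ZMod 2) (LinearMap.ker g) ≤
      finrank (ZMod 2) (LinearMap.ker (β (lin q.nm y))) := by
    apply Submodule.finrank_mono
    intro z hz
    have hz' : β' y (lin q.res z) = 0 := hz
    rw [symm'] at hz'
    have h7 := proj' q ((hβ' _ _).1 hz')
    show β (lin q.nm y) z = 0
    rw [symm]
    exact (hβ _ _).2 h7
  omega

end Pool.Agent.GoReal
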