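import Pool.Agent.GoReal.Ext

/-!
# A class with value group of order two in a field without independent pairs
-/

namespace Pool.Agent.GoReal

open Pool.Agent.Hhelper2 Pool.Agent.Hhelper2.QuadExt Pool.Agent.Hhelper2.Tower Pool.Agent.KRad
open Additive Module

universe u

section abs

variable {S T : QStr.{u}}

theorem prime_prod (hS : IsPrimeStr S) (h1 : S.Split 1 1) {A B : QStr.{u}}
    (f : S.Iso (A.prod B)) : Nonempty (S.Iso A) ∨ Nonempty (S.Iso B) := by
  have h11 : (A.prod B).Split 1 1 := by
    have := (f.map_split 1 1).1 h1
    rwa [map_one] at this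
  rcases hS.2 A B ⟨f⟩ with h | h
  · right
    let g : (A.prod B).Iso (B.prod A) :=
      { e := MulEquiv.prodComm
        map_neg := rfl
        map_split := fun x y => And.comm }
    exact ⟨(f.trans g).trans (QStr.Iso.ofProdTrivial B A (fun x => Subsingleton.elim _ _) h11.1)⟩
  · left
    exact ⟨f.trans (QStr.Iso.ofProdTrivial A B (fun x => Subsingleton.elim _ _) h11.2)⟩

open Classical in
/-- Splitting off one factor of a product. -/
noncomputable def piIso {ι : Type u} (L : ι → QStr.{u}) (i : ι) :
    (QStr.pi L).Iso ((L i).prod (QStr.pi fun j : {j // j ≠ i} => L j)) where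
  e :=
    { Equiv.piSplitAt i (fun j => (L j).G) with
      map_mul' := fun _ _ => rfl }
  map_neg := rfl
  map_split := by
    intro x y
    constructor
    · intro h
      exact ⟨h i, fun j => h j⟩
    · rintro ⟨h1, h3⟩ j
      by_cases hj : j = i
      · subst hj; exact h1
      · exact h3 ⟨j, hj⟩

theorem prime_pi (hS : IsPrimeStr S) (h1 : S.Split 1 1) {ι : Type u} (L : ι → QStr.{u})
    (f : S.Iso (QStr.pi L)) : Subsingleton S.G ∨ ∃ i, Nonempty (S.Iso (L i)) := by
  by_cases h : ∀ i, Subsingleton (L i).G
  · left
    have : Subsingleton (QStr.pi L).G := ⟨fun x y => funext fun i => (h i).elim _ _⟩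
    exact f.e.toEquiv.subsingleton
  · right
    push Not at h
    obtain ⟨i, hi⟩ := h
    refine ⟨i, ?_⟩
    rcases prime_prod hS h1 (f.trans (piIso L i)) with h3 | h3
    · exact h3
    · rcases hS.2 _ _ ⟨f.trans (piIso L i)⟩ with h4 | h4
      · exact absurd h4 (not_subsingleton_iff_nontrivial.2 hi)
      · have h11 : ((L i).prod (QStr.pi fun j : {j // j ≠ i} => L j)).Split 1 1 := by
          have := ((f.trans (piIso L i)).map_split 1 1).1 h1
          rwa [map_one] at this
        exact ⟨(f.trans (piIso L i)).trans
          (QStr.Iso.ofProdTrivial _ _ (fun x => Subsingleton.elim _ _) h11.2)⟩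

theorem isLocal_congr (f : S.Iso T) (h : T.IsLocal) : S.IsLocal where
  sq a := f.e.injective (by rw [map_mul, map_one, h.sq])
  symm a b hab := (f.map_split _ _).2 (h.symm _ _ ((f.map_split _ _).1 hab))
  one a := (f.map_split _ _).2 (by rw [map_one]; exact h.one _)
  neg a := (f.map_split _ _).2 (by rw [map_mul, f.map_neg]; exact h.neg _)
  mul a b c hb hc := (f.map_split _ _).2 (by
    rw [map_mul]; exact h.mul _ _ _ ((f.map_split _ _).1 hb) ((f.map_split _ _).1 hc))
  index a b c hb hc := (f.map_split _ _).2 (by
    rw [map_mul]
    exact h.index _ _ _ (fun h' => hb ((f.map_split _ _).2 h')) (fun h' => hc ((f.map_split _ _).2 h')))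
  nondeg a ha := by
    obtain ⟨b, hb⟩ := h.nondeg (f.e a) (fun h' => ha (f.e.injective (by rw [h', map_one])))
    refine ⟨f.e.symm b, fun h' => hb ?_⟩
    have := (f.map_split _ _).1 h'
    rwa [show f.e (f.e.symm b) = b from f.e.apply_symm_apply b] at this

end abs

/-- If there are no independent pairs and some class has a value group of order two, then the
quaternionic structure is of local type or has a birigid class. -/
theorem locExt_of_sv_one {K : Type u} [Field K] (h2 : (2 : K) ≠ 0) [Finite (SqClass K)]
    (hK : Conn K) {n : VV K} (hn : sv K n = 1) : LocExt K := by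
  have hax := QStr.ofField_axioms K h2
  have hP := (conn_iff K h2).1 hK
  have h11 : (QStr.ofField K).Split 1 1 := hax.one 1
  have hn0 : n ≠ 0 := by
    rintro rfl
    rw [sv_zero h2] at hn
    exact absurd hn (by norm_num)
  have hnt : ¬ Subsingleton (QStr.ofField K).G := fun h => hn0 (h.elim (toMul n) 1)
  obtain ⟨Q, _, _, _, V', _, _, _, β', e', κ, _, E, ι, _, L, R, hG, hnd, hs, hr, hE, hL, hR, -,
    ⟨f⟩, hb⟩ := SmallEl.main_decomp K h2 (Nat.card (SqClass K)) (by
      intro a
      have h1 : 0 < Nat.card {b : SqClass K // FieldSplit K a b} := by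
        have : Nonempty {b : SqClass K // FieldSplit K a b} :=
          ⟨⟨1, (QStr.ofField_axioms K h2).one a⟩⟩
        exact Nat.card_pos
      exact Nat.le_mul_of_pos_right _ h1)
  rw [locExt_iff h2]
  rcases prime_prod hP h11 f with hf | hf
  · obtain ⟨f⟩ := hf
    rcases prime_prod hP h11 f with hf | hf
    · obtain ⟨f⟩ := hf
      rcases prime_prod hP h11 f with hf | hf
      · -- no small classes
        exfalso
        obtain ⟨f⟩ := hf
        have hsm : (QStr.ofField K).IsSmall (toMul n) := by
          intro x y hx hy
          obtain ⟨Q, _, _, _, β, hβ, symm, -⟩ := exists_symbol K h2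
          rw [sv_eq_finrank_range β hβ] at hn
          obtain ⟨v, -, hv⟩ := finrank_eq_one_iff'.1 hn
          have h4 : ∀ y : VV K, β n y = 0 ∨ β n y = v := by
            intro y
            obtain ⟨c, hc⟩ := hv ⟨β n y, LinearMap.mem_range_self _ _⟩
            have hc' := congrArg Subtype.val hc
            rcases zmod2_cases c with h5 | h5
            · left
              rw [h5] at hc'
              simpa using hc'.symm
            · right
              rw [h5] at hc'
              simpa using hc'.symm
          let x' : VV K := ofMul (x : SqClass K)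
          let y' : VV K := ofMul (y : SqClass K)
          have hx' : β n x' ≠ 0 := fun h0 => hx ((hβ _ _).1 h0)
          have hy' : β n y' ≠ 0 := fun h0 => hy ((hβ _ _).1 h0)
          have h6 : β n (x' + y') = 0 := by
            rw [map_add, (h4 _).resolve_left hx', (h4 _).resolve_left hy', Codim.add_self]
          exact (hβ _ _).1 h6
        have h3 : f.e (toMul n) = 1 := by
          apply SmallEl.small_eq_one e' hnd hs
          intro x y hx hy
          have ex : f.e (f.e.symm x) = x := f.e.apply_symm_apply x
          have ey : f.e (f.e.symm y) = y := f.e.apply_symm_apply y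
          have := hsm (f.e.symm x) (f.e.symm y)
            (fun h => hx (by have := (f.map_split _ _).1 h; rwa [ex] at this))
            (fun h => hy (by have := (f.map_split _ _).1 h; rwa [ey] at this))
          have := (f.map_split _ _).1 this
          rwa [map_mul, ex, ey] at this
        apply hn0
        have h4 : toMul n = (1 : SqClass K) := f.e.injective (h3.trans (map_one f.e).symm)
        exact h4
      · -- group extensions
        obtain ⟨f⟩ := hf
        have e1 : Nonempty ((QStr.ofField K).Iso (QStr.pi fun i : ULift.{u} κ => E i.down)) := by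
          refine ⟨f.trans ?_⟩
          exact
            { e :=
                { toFun := fun x i => x i.down
                  invFun := fun x i => x ⟨i⟩
                  left_inv := fun _ => rfl
                  right_inv := fun _ => rfl
                  map_mul' := fun _ _ => rfl }
              map_neg := rfl
              map_split := fun x y => ⟨fun h i => h i.down, fun h i => h ⟨i⟩⟩ }
        obtain ⟨g⟩ := e1
        rcases prime_pi hP h11 _ g with h | ⟨i, ⟨h⟩⟩
        · exact absurd h hnt
        · right
          obtain ⟨Vj, _, _, βj, ej, -, -, -, -, -, ⟨hiso⟩⟩ := hE i.down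
          exact ⟨_, ⟨h.trans hiso⟩⟩
    · -- totally split
      exfalso
      obtain ⟨f⟩ := hf
      apply hn0
      have h3 : ∀ c, (QStr.ofField K).Split (toMul n) c := fun c => (f.map_split _ _).2 (hR _ _)
      exact hP.1 _ h3
  · obtain ⟨f⟩ := hf
    rcases prime_pi hP h11 _ f with h | ⟨i, ⟨h⟩⟩
    · exact absurd h hnt
    · exact Or.inl (isLocal_congr h (hL i))

end Pool.Agent.GoReal
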