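import Pool.Agent.KRad.GoFinal
import Pool.Agent.Hhelper2.BasicPart
import Pool.Agent.Hhelper2.ExtTower
import Pool.Agent.Hhelper2.Assemble

/-!
# Fields of local type and group extensions
-/

namespace Pool.Agent.GoReal

open Pool.Agent.Hhelper2 Pool.Agent.Hhelper2.QuadExt Pool.Agent.Hhelper2.Tower Pool.Agent.KRad
open Additive Module

universe u

/-- The quaternionic structure is of local type or has a birigid class (that is, it is a group
extension, see `locExt_iff`). -/
def LocExt (K : Type u) [Field K] : Prop :=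
  (QStr.ofField K).IsLocal ∨ ∃ t, (QStr.ofField K).Birigid t

/-- The class of `-1` in additive notation. -/
noncomputable abbrev ee (K : Type u) [Field K] : VV K := ofMul (sqClass (-1 : Kˣ))

/-- The dimension of the group of square classes. -/
noncomputable abbrev dd (K : Type u) [Field K] : ℕ := finrank (ZMod 2) (VV K)

section
variable {K : Type u} [Field K]

theorem sp_neg (h2 : (2 : K) ≠ 0) (x : VV K) : Sp K x (x + ee K) := by
  have h := (QStr.ofField_axioms K h2).neg (toMul x)
  rw [add_comm]
  exact h

theorem ee_add_ee : ee K + ee K = 0 := Codim.add_self _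

variable [Finite (SqClass K)]

theorem card_VV : Nat.card (VV K) = 2 ^ dd K := natCard_eq_pow

theorem sv_le (h2 : (2 : K) ≠ 0) (x : VV K) : sv K x ≤ dd K := by
  obtain ⟨Q, _, _, _, β, hβ, -, -⟩ := exists_symbol K h2
  have := sv_add_finrank_ker β hβ x
  have h3 : dd K = finrank (ZMod 2) (VV K) := rfl
  omega

theorem dg_eq_pow (h2 : (2 : K) ≠ 0) (x : VV K) : dg K x = 2 ^ (dd K - sv K x) := by
  obtain ⟨Q, _, _, _, β, hβ, -, -⟩ := exists_symbol K h2
  have h1 := sv_add_finrank_ker β hβ x
  rw [dg_eq β hβ]
  congr 1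
  have h3 : dd K = finrank (ZMod 2) (VV K) := rfl
  omega

/-- `N(x)` contains `0` and `x + e`. -/
theorem two_le_dg (h2 : (2 : K) ≠ 0) {x : VV K} (hx : x ≠ ee K) : 2 ≤ dg K x := by
  classical
  have h1 : Function.Injective (fun b : Bool =>
      (if b then ⟨0, sp_zero_right h2 x⟩ else ⟨x + ee K, sp_neg h2 x⟩ :
        {y : VV K // Sp K x y})) := by
    intro a b hab
    have hne : (0 : VV K) ≠ x + ee K := by
      intro h
      exact hx (Codim.eq_of_add_eq_zero h.symm)
    cases a <;> cases b <;> simp_all
  have h3 := Nat.card_le_card_of_injective _ h1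
  rw [Nat.card_eq_fintype_card, Fintype.card_bool] at h3
  exact h3

theorem sv_lt (h2 : (2 : K) ≠ 0) {x : VV K} (hx : x ≠ ee K) : sv K x + 1 ≤ dd K := by
  have h1 := two_le_dg h2 hx
  rw [dg_eq_pow h2] at h1
  by_contra hcon
  have h3 : dd K - sv K x = 0 := by omega
  rw [h3] at h1
  norm_num at h1

/-- Rigid classes in terms of the rank function. -/
theorem rigid_iff (h2 : (2 : K) ≠ 0) {x : VV K} (hx : x ≠ ee K) :
    sv K x + 1 = dd K ↔ ∀ y, Sp K x y ↔ y = 0 ∨ y = x + ee K := by
  classical
  have hne : (0 : VV K) ≠ x + ee K := fun h => hx (Codim.eq_of_add_eq_zero h.symm)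
  have hfin : Finite {y : VV K // Sp K x y} := inferInstance
  constructor
  · intro h y
    constructor
    · intro hy
      by_contra hcon
      push Not at hcon
      have h1 : Function.Injective (fun b : Fin 3 =>
          (![⟨0, sp_zero_right h2 x⟩, ⟨x + ee K, sp_neg h2 x⟩, ⟨y, hy⟩] b :
            {y : VV K // Sp K x y})) := by
        intro a b hab
        fin_cases a <;> fin_cases b <;> simp_all [eq_comm]
      have h3 := Nat.card_le_card_of_injective _ h1
      rw [Nat.card_eq_fintype_card, Fintype.card_fin] at h3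
      have h4 : dg K x = 2 ^ (dd K - sv K x) := dg_eq_pow h2 x
      have h5 : dd K - sv K x = 1 := by omega
      rw [h5] at h4
      have h6 : 3 ≤ dg K x := h3
      omega
    · rintro (rfl | rfl)
      · exact sp_zero_right h2 x
      · exact sp_neg h2 x
  · intro h
    have h1 : dg K x ≤ 2 := by
      have hsurj : Function.Surjective (fun b : Bool =>
          (if b then ⟨0, sp_zero_right h2 x⟩ else ⟨x + ee K, sp_neg h2 x⟩ :
            {y : VV K // Sp K x y})) := by
        rintro ⟨y, hy⟩
        rcases (h y).1 hy with rfl | rfl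
        · exact ⟨true, rfl⟩
        · exact ⟨false, rfl⟩
      have h3 := Nat.card_le_card_of_surjective _ hsurj
      rw [Nat.card_eq_fintype_card (α := Bool), Fintype.card_bool] at h3
      exact h3
    have h3 := sv_lt h2 hx
    rw [dg_eq_pow h2] at h1
    by_contra hcon
    have h4 : 2 ≤ dd K - sv K x := by omega
    have h5 : 2 ^ 2 ≤ 2 ^ (dd K - sv K x) := Nat.pow_le_pow_right (by norm_num) h4
    omega

omit [Finite (SqClass K)] in
/-- Birigid classes in additive notation. -/
theorem birigid_iff' (x : VV K) :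
    (QStr.ofField K).Birigid (toMul x) ↔
      x ≠ 0 ∧ x ≠ ee K ∧ (∀ y, Sp K x y ↔ y = 0 ∨ y = ee K + x) ∧
        (∀ y, Sp K (ee K + x) y ↔ y = 0 ∨ y = x) :=
  Iff.rfl

/-- Birigid classes in terms of the rank function. -/
theorem birigid_iff (h2 : (2 : K) ≠ 0) (x : VV K) :
    (QStr.ofField K).Birigid (toMul x) ↔
      x ≠ 0 ∧ x ≠ ee K ∧ sv K x + 1 = dd K ∧ sv K (x + ee K) + 1 = dd K := by
  have hadd : x + ee K + ee K = x := by rw [add_assoc, ee_add_ee, add_zero]
  rw [birigid_iff', add_comm (ee K) x]
  constructor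
  · rintro ⟨h1, h3, h4, h5⟩
    have hx0 : x + ee K ≠ ee K := fun h => h1 (by simpa using h)
    refine ⟨h1, h3, (rigid_iff h2 h3).2 h4, (rigid_iff h2 hx0).2 ?_⟩
    rw [hadd]
    exact h5
  · rintro ⟨h1, h3, h4, h5⟩
    have hx0 : x + ee K ≠ ee K := fun h => h1 (by simpa using h)
    have h6 := (rigid_iff h2 hx0).1 h5
    rw [hadd] at h6
    exact ⟨h1, h3, (rigid_iff h2 h3).1 h4, h6⟩

/-- Structures of local type in terms of the rank function. -/
theorem isLocal_iff (h2 : (2 : K) ≠ 0) :
    (QStr.ofField K).IsLocal ↔ ∀ x : VV K, x ≠ 0 → sv K x = 1 := by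
  obtain ⟨Q, _, _, _, β, hβ, symm, -⟩ := exists_symbol K h2
  constructor
  · intro h x hx
    rw [sv_eq_finrank_range β hβ]
    obtain ⟨b, hb⟩ : ∃ b : VV K, ¬ Sp K x b := by
      obtain ⟨b, hb⟩ := h.nondeg (toMul x) hx
      exact ⟨ofMul (b : SqClass K), hb⟩
    have hb' : β x b ≠ 0 := fun h0 => hb ((hβ _ _).1 h0)
    have hval : ∀ y, β x y ≠ 0 → β x y = β x b := by
      intro y hy
      have h3 : Sp K x (y + b) := h.index (toMul x) (toMul y) (toMul b)
        (fun h0 => hy ((hβ _ _).2 h0)) hb
      have h4 : β x (y + b) = 0 := (hβ _ _).2 h3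
      rw [map_add] at h4
      exact Codim.eq_of_add_eq_zero h4
    have hspan : LinearMap.range (β x) = Submodule.span (ZMod 2) {β x b} := by
      apply le_antisymm
      · rintro _ ⟨y, rfl⟩
        by_cases hy : β x y = 0
        · rw [hy]; exact Submodule.zero_mem _
        · rw [hval y hy]; exact Submodule.mem_span_singleton_self _
      · rw [Submodule.span_singleton_le_iff_mem]
        exact ⟨b, rfl⟩
    rw [hspan]
    exact finrank_span_singleton hb'
  · intro h
    have hax := QStr.ofField_axioms K h2
    refine ⟨hax.sq, hax.symm, hax.one, hax.neg, hax.mul, ?_, ?_⟩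
    · intro a b c hb hc
      let a' : VV K := ofMul (a : SqClass K)
      let b' : VV K := ofMul (b : SqClass K)
      let c' : VV K := ofMul (c : SqClass K)
      have hb1 : ¬ Sp K a' b' := hb
      have hc1 : ¬ Sp K a' c' := hc
      show Sp K a' (b' + c')
      by_cases ha : a' = 0
      · rw [ha] at hb1
        exact absurd (sp_zero_left h2 _) hb1
      · have h3 := h a' ha
        rw [sv_eq_finrank_range β hβ] at h3
        obtain ⟨v, -, hv⟩ := finrank_eq_one_iff'.1 h3
        have h4 : ∀ y : VV K, β a' y = 0 ∨ β a' y = v := by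
          intro y
          obtain ⟨c, hc⟩ := hv ⟨β a' y, LinearMap.mem_range_self _ _⟩
          have hc' := congrArg Subtype.val hc
          rcases zmod2_cases c with h5 | h5
          · left
            rw [h5] at hc'
            simpa using hc'.symm
          · right
            rw [h5] at hc'
            simpa using hc'.symm
        have hb' : β a' b' ≠ 0 := fun h0 => hb1 ((hβ _ _).1 h0)
        have hc' : β a' c' ≠ 0 := fun h0 => hc1 ((hβ _ _).1 h0)
        have h6 : β a' (b' + c') = 0 := by
          rw [map_add, (h4 _).resolve_left hb', (h4 _).resolve_left hc', Codim.add_self]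
        exact (hβ _ _).1 h6
    · intro a ha
      let a' : VV K := ofMul (a : SqClass K)
      have ha' : a' ≠ 0 := ha
      by_contra hcon
      push Not at hcon
      have h3 := h a' ha'
      have h4 : sv K a' = 0 := (sv_eq_zero_iff h2 _).2 (fun y => hcon (toMul y))
      rw [h4] at h3
      exact absurd h3 (by norm_num)

end

end Pool.Agent.GoReal
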