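import Pool.Agent.GoReal.QG
import Pool.Agent.GoReal.Small

/-!
# Birigid classes of a quadratic extension
-/

namespace Pool.Agent.GoReal

open Pool.Agent.Hhelper2 Pool.Agent.Hhelper2.QuadExt Pool.Agent.Hhelper2.Tower Pool.Agent.KRad
open Additive Module

universe u

/-- Birigid classes in additive notation. -/
def Bi (K : Type u) [Field K] (x : VV K) : Prop := (QStr.ofField K).Birigid (toMul x)

section
variable {K : Type u} [Field K] [Finite (SqClass K)]

theorem bi_iff (h2 : (2 : K) ≠ 0) (x : VV K) :
    Bi K x ↔ x ≠ 0 ∧ x ≠ ee K ∧ sv K x + 1 = dd K ∧ sv K (x + ee K) + 1 = dd K :=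
  birigid_iff h2 x

theorem bi_add (h2 : (2 : K) ≠ 0) {x y : VV K} (hx : Bi K x) (hy : ¬ Bi K y) : Bi K (x + y) := by
  have : Fintype (QStr.ofField K).G := Fintype.ofFinite (SqClass K)
  exact (QStr.ofField_axioms K h2).birigid_mul hx hy

omit [Finite (SqClass K)] in
theorem Bi.split {x : VV K} (hx : Bi K x) {y : VV K} (h : Sp K x y) : y = 0 ∨ y = ee K + x :=
  (hx.2.2.1 (toMul y)).1 h

/-- A class which is split with exactly two classes. -/
theorem sv_of_two (h2 : (2 : K) ≠ 0) {x n : VV K} (hn : n ≠ 0)
    (h : ∀ y, Sp K x y ↔ y = 0 ∨ y = n) : sv K x + 1 = dd K := by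
  classical
  have h1 : dg K x = 2 := by
    have e : {y : VV K // Sp K x y} ≃ Bool :=
      { toFun := fun y => decide (y.1 = 0)
        invFun := fun b => if b then ⟨0, (h 0).2 (Or.inl rfl)⟩ else ⟨n, (h n).2 (Or.inr rfl)⟩
        left_inv := by
          rintro ⟨y, hy⟩
          rcases (h y).1 hy with rfl | rfl
          · simp
          · simp [hn]
        right_inv := by
          intro b
          cases b <;> simp [hn] }
    show Nat.card {y : VV K // Sp K x y} = 2
    rw [Nat.card_congr e, Nat.card_eq_fintype_card, Fintype.card_bool]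
  rw [dg_eq_pow h2] at h1
  have h3 := sv_le h2 x
  have h4 : dd K - sv K x = 1 := by
    have : 2 ^ (dd K - sv K x) = 2 ^ 1 := by rw [h1, pow_one]
    exact Nat.pow_right_injective (le_refl 2) this
  omega

end

variable {K E : Type u} [Field K] [Field E] {a : SqClass K}

theorem res_ee (q : QS K E a) : lin q.res (ee K) = ee E := q.res_neg

/-- Going down, main step. -/
theorem core (h2 : (2 : K) ≠ 0) [Finite (SqClass K)] (q : QG K E a) (ha : a ≠ 1)
    (hE : ∃ t, Bi E t) :
    (∃ t, Bi K t) ∨ ((ofMul a : VV K) = ee K ∧ (∀ y, Sp K (ofMul a) y ↔ y = 0 ∨ y = ofMul a) ∧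
      ∀ y : VV E, (¬ ∃ x, y = lin q.res x) → Bi E y) := by
  have := finite_ext q.toQE
  have h2E := q.two_ne
  set A : VV K := ofMul a with hA
  have hA0 : A ≠ 0 := ha
  set r := lin q.res with hr
  set N := lin q.nm with hN
  have rz : ∀ x, r x = 0 ↔ x = 0 ∨ x = A := fun x => res_zero_iff q.toQE x
  have rA : r A = 0 := (rz A).2 (Or.inr rfl)
  have re : r (ee K) = ee E := res_ee q.toQS
  have nr : ∀ x, N (r x) = 0 := fun x => nm_res' q.toQE x
  by_cases hi : ∃ v, Bi E (r v)
  · left
    obtain ⟨v, hv⟩ := hi
    obtain ⟨h1, h3, h4, h5⟩ := (bi_iff h2E _).1 hv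
    rw [← re, ← map_add] at h5
    have s1 := sv_step h2 q.toQE v
    have s2 := sv_step h2 q.toQE (v + ee K)
    have s3 := finrank_ext h2 q.toQE ha
    have hv0 : v ≠ 0 := fun h => h1 (by rw [h, map_zero])
    have hvA : v ≠ A := fun h => h1 (by rw [h, rA])
    have hve : v ≠ ee K := fun h => h3 (by rw [h, re])
    have hvAe : v + A ≠ ee K := fun h => h3 (by rw [← re, ← h, map_add, rA, add_zero])
    have hvee : v + ee K ≠ ee K := fun h => hv0 (by simpa using h)
    have hveeA : v + ee K + A ≠ ee K := by
      intro h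
      apply hvA
      apply Codim.eq_of_add_eq_zero
      have e : v + ee K + A + ee K = v + A + (ee K + ee K) := by abel
      rw [h, ee_add_ee, add_zero] at e
      exact e.symm
    have l1 := sv_lt h2 hve
    have l2 := sv_lt h2 hvAe
    have l3 := sv_lt h2 hvee
    have l4 := sv_lt h2 hveeA
    refine ⟨v, (bi_iff h2 v).2 ⟨hv0, hve, ?_, ?_⟩⟩
    · have s1' : sv E (r v) + sv K A = sv K v + sv K (v + A) := s1
      have s3' : dd E + sv K A + 1 = 2 * dd K := s3
      omega
    · have s2' : sv E (r (v + ee K)) + sv K A = sv K (v + ee K) + sv K (v + ee K + A) := s2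
      have s3' : dd E + sv K A + 1 = 2 * dd K := s3
      omega
  · push Not at hi
    obtain ⟨ρ, hρ⟩ := hE
    set n := N ρ with hn
    have hn0 : n ≠ 0 := by
      intro h
      obtain ⟨x, hx⟩ := ker_nm' q.toQE h
      exact hi x (by rw [← hx]; exact hρ)
    have hnA : Sp K A n := nm_split' q.toQE ρ
    have claim1 : ∀ n', Sp K A n' → n' = 0 ∨ n' = n := by
      intro n' hn'
      obtain ⟨w, rfl⟩ := range_nm' q.toQE hn'
      obtain ⟨f, h, hfh⟩ := q.lemS (toMul ρ) (toMul w)
      have hfh' : Sp E (ρ + r (ofMul f)) (w + r (ofMul h)) := hfh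
      rcases (bi_add h2E hρ (hi (ofMul f))).split hfh' with h3 | h3
      · left
        have := congrArg N h3
        rw [map_add, nr, add_zero, map_zero] at this
        exact this
      · right
        have := congrArg N h3
        rw [map_add, nr, add_zero, map_add, map_add, nr, add_zero, ← re, nr, zero_add] at this
        exact this
    have claim2 : ∀ y : VV E, (¬ ∃ x, y = r x) → Bi E y := by
      intro y hy
      have h1 : N y ≠ 0 := fun h => hy (ker_nm' q.toQE h)
      have h3 : N y = n := (claim1 _ (nm_split' q.toQE y)).resolve_left h1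
      obtain ⟨t, ht⟩ := ker_nm' q.toQE (show N (y + ρ) = 0 by rw [map_add, h3, Codim.add_self])
      have h4 : y = ρ + r t := by
        rw [← ht, add_comm y, ← add_assoc, Codim.add_self, zero_add]
      rw [h4]
      exact bi_add h2E hρ (hi t)
    have claim3 : ∀ x, Sp K x n → x = 0 ∨ x = A := by
      intro x hx
      obtain ⟨t, ht⟩ := principle' q.toQE hx
      have ht' : Sp E (ρ + r t) (r x) := sp_symm h2E ht
      rcases (bi_add h2E hρ (hi t)).split ht' with h3 | h3
      · exact (rz x).1 h3
      · exfalso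
        apply hi (x + ee K + t)
        have h4 : r (x + ee K + t) = ρ := by
          rw [map_add, map_add, h3, re]
          have : ee E + (ρ + r t) + ee E + r t = ρ + (ee E + ee E) + (r t + r t) := by abel
          rw [this, Codim.add_self, Codim.add_self, add_zero, add_zero]
        rw [h4]
        exact hρ
    have hAe := claim1 _ (sp_neg h2 A)
    by_cases hAee : A = ee K
    · right
      -- `n = e`
      have h3 : Sp K (n + ee K) n := sp_symm h2 (sp_neg h2 n)
      have hnA' : n = A := by
        rcases claim3 _ h3 with h4 | h4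
        · rw [hAee]; exact Codim.eq_of_add_eq_zero h4
        · exfalso
          apply hn0
          rw [hAee] at h4
          simpa using h4
      refine ⟨hAee, fun y => ⟨fun h => ?_, ?_⟩, claim2⟩
      · rw [← hnA']; exact claim1 y h
      · rintro (h | h)
        · rw [h]; exact sp_zero_right h2 A
        · rw [h]
          have := hnA
          rw [hnA'] at this
          exact this
    · left
      have hAe0 : A + ee K ≠ 0 := fun h => hAee (Codim.eq_of_add_eq_zero h)
      have hnAe : A + ee K = n := hAe.resolve_left hAe0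
      refine ⟨A, (bi_iff h2 A).2 ⟨hA0, hAee, (rigid_iff h2 hAee).2 fun y => ⟨fun h => ?_, ?_⟩,
        (rigid_iff h2 (fun h => hA0 (by simpa using h))).2 fun y => ⟨fun h => ?_, ?_⟩⟩⟩
      · rw [hnAe]; exact claim1 y h
      · rintro (h | h)
        · rw [h]; exact sp_zero_right h2 A
        · rw [h]; exact sp_neg h2 A
      · rw [hnAe] at h
        rw [add_assoc, ee_add_ee, add_zero]
        exact claim3 y (sp_symm h2 h)
      · rintro (h | h)
        · rw [h]; exact sp_zero_right h2 _
        · rw [h]; exact sp_neg h2 _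

end Pool.Agent.GoReal
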