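import Pool.Agent.GoReal.PExt

/-!
# Going down: fields of local type and group extensions
-/

namespace Pool.Agent.GoReal

open Pool.Agent.Hhelper2 Pool.Agent.Hhelper2.QuadExt Pool.Agent.Hhelper2.Tower Pool.Agent.KRad
open Additive Module

universe u

section
variable {K : Type u} [Field K] [Finite (SqClass K)]

theorem exists_third {V : Type*} [AddCommGroup V] [Module (ZMod 2) V] [Finite V]
    (h : 2 ≤ finrank (ZMod 2) V) (a : V) : ∃ v : V, v ≠ 0 ∧ v ≠ a := by
  by_contra hcon
  push Not at hcon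
  have h1 : finrank (ZMod 2) V ≤ 1 := by
    apply finrank_le_one a
    intro w
    by_cases hw : w = 0
    · exact ⟨0, by rw [hw, zero_smul]⟩
    · exact ⟨1, by rw [one_smul, hcon w hw]⟩
  omega

theorem exists_split (h2 : (2 : K) ≠ 0) {x : VV K} (h : sv K x + 1 ≤ dd K) :
    ∃ n : VV K, n ≠ 0 ∧ Sp K x n := by
  by_contra hcon
  push Not at hcon
  have h1 : dg K x ≤ 1 := by
    have : Subsingleton {y : VV K // Sp K x y} := by
      constructor
      rintro ⟨y, hy⟩ ⟨z, hz⟩
      have h3 : y = 0 := by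
        by_contra h0
        exact hcon y h0 hy
      have h4 : z = 0 := by
        by_contra h0
        exact hcon z h0 hz
      exact Subtype.ext (h3.trans h4.symm)
    exact Finite.card_le_one_iff_subsingleton.2 this
  rw [dg_eq_pow h2] at h1
  have h3 : 2 ^ 1 ≤ 2 ^ (dd K - sv K x) := Nat.pow_le_pow_right (by norm_num) (by omega)
  omega

theorem sv_le_one (h2 : (2 : K) ≠ 0) (h : (QStr.ofField K).IsLocal) (y : VV K) : sv K y ≤ 1 := by
  by_cases hy : y = 0
  · rw [hy, sv_zero h2]; norm_num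
  · rw [(isLocal_iff h2).1 h y hy]

end

/-- A nonzero norm from a quadratic extension of local type. -/
theorem locExt_of_norm {K E : Type u} [Field K] [Field E] {a : SqClass K} (h2 : (2 : K) ≠ 0)
    [Finite (SqClass K)] (q : QE K E a) (hK : Conn K) (hE : ∀ y, sv E y ≤ 1) {n : VV K}
    (hn0 : n ≠ 0) (hn : Sp K (ofMul a) n) : LocExt K := by
  obtain ⟨y, rfl⟩ := range_nm' q hn
  have h1 := sv_nm_le h2 q y
  have h3 := hE y
  have h4 : sv K (lin q.nm y) ≠ 0 := fun h => hn0 (hK.radical h2 h)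
  exact locExt_of_sv_one h2 hK (n := lin q.nm y) (by omega)

/-- Going down: if `K` has no independent pairs and the quadratic extension `E` of `K` is of local
type or a group extension, then so is `K`. -/
theorem locExt_down {K E : Type u} [Field K] [Field E] [Algebra K E] (h2 : (2 : K) ≠ 0)
    [Finite (SqClass K)] (hfin : finrank K E = 2) (hK : Conn K) (hE : LocExt E) : LocExt K := by
  rcases hE with hE | hE
  swap
  · exact Or.inr (bi_down h2 hfin hK hE)
  obtain ⟨hCE, h2E, hfE⟩ := goUp_field h2 hfin hK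
  obtain ⟨a, α, hα, hns⟩ := exists_sqrt (K := K) (E := E) h2 hfin
  obtain ⟨q, hq, -⟩ := exists_QG h2 hfin a α hα hns
  have ha : sqClass a ≠ 1 := fun h => hns ((one_iff a).1 h)
  set A : VV K := ofMul (sqClass a) with hAdef
  have hA0 : A ≠ 0 := ha
  by_cases hN : ∃ n : VV K, n ≠ 0 ∧ Sp K A n
  · obtain ⟨n, hn0, hn⟩ := hN
    exact locExt_of_norm h2 q.toQE hK (sv_le_one h2E hE) hn0 hn
  push Not at hN
  have hAe : A = ee K := by
    by_contra h
    exact hN (A + ee K) (fun h0 => h (Codim.eq_of_add_eq_zero h0)) (sp_neg h2 A)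
  have sA : sv K A = dd K := by
    by_contra h
    have h1 := sv_le h2 A
    obtain ⟨n, hn0, hn⟩ := exists_split h2 (x := A) (by omega)
    exact hN n hn0 hn
  have f1 := finrank_ext h2 q.toQE ha
  have f1' : dd E + sv K A + 1 = 2 * dd K := f1
  have hloc := (isLocal_iff h2E).1 hE
  have hsum : ∀ x : VV K, x ≠ 0 → x ≠ A → sv K x + sv K (x + A) = dd K + 1 := by
    intro x hx0 hxA
    have s1 := sv_step h2 q.toQE x
    have s2 : sv E (lin q.res x) = 1 := hloc _ (fun h => by
      rcases (res_zero_iff q.toQE x).1 h with h3 | h3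
      · exact hx0 h3
      · exact hxA h3)
    have s1' : sv E (lin q.res x) + sv K A = sv K x + sv K (x + A) := s1
    omega
  have hd0 : dd K ≠ 0 := by
    intro h
    exact hA0 (hK.radical h2 (by omega))
  by_cases hd1 : dd K = 1
  · left
    rw [isLocal_iff h2]
    intro x hx
    have h3 := sv_le h2 x
    have h4 : sv K x ≠ 0 := fun h => hx (hK.radical h2 h)
    omega
  obtain ⟨x, hx0, hxA⟩ := exists_third (V := VV K) (by
    have : dd K = finrank (ZMod 2) (VV K) := rfl
    omega) A
  have hxA0 : x + A ≠ 0 := fun h => hxA (Codim.eq_of_add_eq_zero h)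
  have hxAA : x + A ≠ A := fun h => hx0 (by simpa using h)
  have m1 := sv_lt h2 (x := x) (by rw [← hAe]; exact hxA)
  have m2 := sv_lt h2 (x := x + A) (by rw [← hAe]; exact hxAA)
  have m3 := hsum x hx0 hxA
  by_cases hd3 : dd K = 3
  · right
    refine ⟨toMul x, (birigid_iff h2 x).2 ⟨hx0, by rw [← hAe]; exact hxA, by omega, ?_⟩⟩
    rw [← hAe]
    omega
  -- a class with large value group
  obtain ⟨x, hx0, hxA, hx3⟩ : ∃ x : VV K, x ≠ 0 ∧ x ≠ A ∧ 3 ≤ sv K x := by
    by_cases h : 3 ≤ sv K x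
    · exact ⟨x, hx0, hxA, h⟩
    · exact ⟨x + A, hxA0, hxAA, by omega⟩
  have m1 := sv_lt h2 (x := x) (by rw [← hAe]; exact hxA)
  have m3 := hsum x hx0 hxA
  obtain ⟨x₀, hx₀⟩ := exists_rep (toMul x)
  have hxx : (ofMul (sqClass x₀) : VV K) = x := congrArg ofMul hx₀
  have hx₀1 : sqClass x₀ ≠ 1 := fun h => hx0 (by rw [← hxx, h]; rfl)
  have hx₀a : sqClass x₀ ≠ sqClass a := fun h => hxA (by rw [← hxx, h])
  obtain ⟨L, F, _, _, _, _, _, p, r, s, hL, hF, hFL, hcomm⟩ := exists_over h2 hfin a α hα q hq ha x₀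
    hx₀1 hx₀a
  obtain ⟨hCL, h2L, hfL⟩ := goUp_field h2E hL hCE
  obtain ⟨hCF, h2F, hfF⟩ := goUp_field h2 hF hK
  have hpe : q.res (sqClass x₀) ≠ 1 := by
    intro h
    rcases (q.res_one _).1 h with h3 | h3
    · exact hx₀1 h3
    · exact hx₀a h3
  have hse : r.res (sqClass a) ≠ 1 := by
    intro h
    rcases (r.res_one _).1 h with h3 | h3
    · exact ha h3
    · exact hx₀a h3.symm
  have exx : (ofMul (q.res (sqClass x₀)) : VV E) = lin q.res x := by
    rw [← hxx]; rfl
  have hx1 : lin q.res x ≠ 0 := by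
    rw [← exx]; exact hpe
  -- `L` is of local type
  have hLoc : (QStr.ofField L).IsLocal := by
    obtain ⟨v, hv0, hvx⟩ := exists_third (V := VV E) (by
      have : dd E = finrank (ZMod 2) (VV E) := rfl
      omega) (lin q.res x)
    have hvx0 : v + lin q.res x ≠ 0 := fun h => hvx (Codim.eq_of_add_eq_zero h)
    have t1 := sv_step h2E p.toQE v
    rw [exx, hloc v hv0, hloc _ hvx0, hloc _ hx1] at t1
    have t3 : sv L (lin p.res v) = 1 := by
      have : sv L (lin p.res v) = sv L (lin p.toQE.res v) := rfl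
      omega
    rcases locExt_of_sv_one h2L hCL t3 with h | h
    · exact h
    · exfalso
      obtain ⟨t, ht⟩ := bi_down h2E hL hCE h
      have h3 := (bi_iff h2E t).1 ht
      have h4 := hloc t h3.1
      omega
  have hL1 := sv_le_one h2L hLoc
  -- the other quadratic extension
  have u1 := sv_step h2 r.toQE A
  have u2 := finrank_ext h2 r.toQE hx₀1
  have e1 : lin r.res A = ofMul (r.res (sqClass a)) := rfl
  rw [hxx] at u1 u2
  rw [e1, add_comm A x] at u1
  obtain ⟨n, hn0, hn⟩ := exists_split h2F (x := ofMul (r.res (sqClass a))) (by omega)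
  rcases locExt_of_norm h2F s.toQE hCF hL1 hn0 hn with h | ⟨v, hv⟩
  · exfalso
    have h3 := (isLocal_iff h2F).1 h (ofMul (r.res (sqClass a))) hse
    omega
  · exfalso
    have h3 := (birigid_iff h2F (ofMul v)).1 hv
    have eF : ee F = ofMul (r.res (sqClass a)) := by
      rw [← res_ee r.toQS, ← hAe]; rfl
    rw [eF] at h3
    have u3 := sv_step h2F s.toQE (ofMul v)
    have u4 := hL1 (lin s.res (ofMul v))
    have u5 : sv L (lin s.res (ofMul v)) = sv L (lin s.toQE.res (ofMul v)) := rfl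
    omega

/-- The same in terms of structures. -/
theorem localOrExt_down {K E : Type u} [Field K] [Field E] [Algebra K E] (h2 : (2 : K) ≠ 0)
    (hf : Finite (SqClass K)) (hfin : finrank K E = 2) (hK : IsPrimeStr (QStr.ofField K))
    (hE : (QStr.ofField E).IsLocal ∨ ∃ T : QStr.{u}, Nonempty ((QStr.ofField E).Iso T.ext)) :
    (QStr.ofField K).IsLocal ∨ ∃ T : QStr.{u}, Nonempty ((QStr.ofField K).Iso T.ext) := by
  have hC := (conn_iff K h2).2 hK
  obtain ⟨hCE, h2E, hfE⟩ := goUp_field h2 hfin hC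
  exact (locExt_iff h2).1 (locExt_down h2 hfin hC ((locExt_iff h2E).2 hE))

end Pool.Agent.GoReal
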