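import Pool.Agent.GoReal.Defs

/-!
# Group extensions and birigid classes
-/

namespace Pool.Agent.GoReal

open Pool.Agent.Hhelper2 Pool.Agent.Hhelper2.QuadExt Pool.Agent.Hhelper2.Tower Pool.Agent.KRad
open Additive Module

universe u

/-- The generator of the group of order two. -/
abbrev cc : Multiplicative (ZMod 2) := Multiplicative.ofAdd 1

theorem cc_cases : ∀ i : Multiplicative (ZMod 2), i = 1 ∨ i = cc := by decide

theorem cc_ne : cc ≠ 1 := by decide

/-- A group extension has a birigid class. -/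
theorem birigid_of_ext {S T : QStr.{u}} (hsq : ∀ a : S.G, a * a = 1) (f : S.Iso T.ext) :
    ∃ t, S.Birigid t := by
  have hTsq : ∀ a : T.G, a * a = 1 := by
    intro a
    have h := congrArg f.e (hsq (f.e.symm ((a, 1) : T.G × Multiplicative (ZMod 2))))
    rw [map_mul, map_one] at h
    have e1 : f.e (f.e.symm ((a, 1) : T.G × Multiplicative (ZMod 2))) = (a, 1) :=
      f.e.apply_symm_apply _
    rw [e1] at h
    exact congrArg Prod.fst h
  set t : S.G := f.e.symm ((1, cc) : T.G × Multiplicative (ZMod 2)) with ht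
  have et : f.e t = ((1, cc) : T.G × Multiplicative (ZMod 2)) := f.e.apply_symm_apply _
  have en : f.e S.neg = ((T.neg, 1) : T.G × Multiplicative (ZMod 2)) := f.map_neg
  have ent : f.e (S.neg * t) = ((T.neg, cc) : T.G × Multiplicative (ZMod 2)) := by
    rw [map_mul, et, en]
    exact Prod.ext (mul_one _) (one_mul _)
  have key : ∀ (g : T.G) (y : T.ext.G), T.ext.Split ((g, cc) : T.G × Multiplicative (ZMod 2)) y ↔
      y = 1 ∨ y = ((T.neg * g, cc) : T.G × Multiplicative (ZMod 2)) := by
    rintro g ⟨y1, y2⟩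
    show ((cc = 1 ∧ y2 = 1 ∧ T.Split g y1) ∨ ((g, cc) : T.G × Multiplicative (ZMod 2)) = 1 ∨
      ((y1, y2) : T.G × Multiplicative (ZMod 2)) = 1 ∨ (cc ≠ 1 ∧ y2 ≠ 1 ∧ y1 = T.neg * g)) ↔ _
    constructor
    · rintro (h | h | h | h)
      · exact absurd h.1 cc_ne
      · exact absurd (congrArg Prod.snd h) cc_ne
      · exact Or.inl h
      · right
        exact Prod.ext h.2.2 ((cc_cases y2).resolve_left h.2.1)
    · rintro (h | h)
      · exact Or.inr (Or.inr (Or.inl h))
      · refine Or.inr (Or.inr (Or.inr ⟨cc_ne, ?_, congrArg Prod.fst h⟩))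
        have : y2 = cc := congrArg Prod.snd h
        rw [this]
        exact cc_ne
  refine ⟨t, ?_, ?_, ?_, ?_⟩
  · intro h
    rw [h, map_one] at et
    exact cc_ne (congrArg Prod.snd et).symm
  · intro h
    rw [h, en] at et
    exact cc_ne (congrArg Prod.snd et).symm
  · intro x
    rw [f.map_split, et, key]
    have h1 : f.e x = 1 ↔ x = 1 := by
      rw [← map_one f.e, f.e.injective.eq_iff]
    have h3 : f.e x = ((T.neg * 1, cc) : T.G × Multiplicative (ZMod 2)) ↔ x = S.neg * t := by
      rw [mul_one, ← ent, f.e.injective.eq_iff]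
    rw [h1, h3]
  · intro x
    rw [f.map_split, ent, key, hTsq]
    have h1 : f.e x = 1 ↔ x = 1 := by
      rw [← map_one f.e, f.e.injective.eq_iff]
    have h3 : f.e x = ((1, cc) : T.G × Multiplicative (ZMod 2)) ↔ x = t := by
      rw [← et, f.e.injective.eq_iff]
    rw [h1, h3]

/-- A structure with a birigid class is a group extension. -/
theorem ext_of_birigid {S : QStr.{u}} (hax : S.Axioms) [Finite S.G] {t : S.G}
    (ht : S.Birigid t) : ∃ T : QStr.{u}, Nonempty (S.Iso T.ext) := by
  have := Fintype.ofFinite S.G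
  obtain ⟨m, ⟨f⟩⟩ := QStr.exists_extPow (Nat.card S.G) S inferInstance rfl hax.sq hax.symm hax.one
    hax.B hax.neg_mem_B (by
      intro s hs
      rw [hax.mem_B, not_not] at hs
      exact hs.2.2.1)
  cases m with
  | zero =>
    exfalso
    have htB : t ∉ hax.B := by
      rw [hax.mem_B, not_not]; exact ht
    have hc : Nat.card S.G = Nat.card hax.B := Nat.card_congr f.e.toEquiv
    have h3 : hax.B = ⊤ := Subgroup.eq_top_of_card_eq _ hc.symm
    exact htB (h3 ▸ Subgroup.mem_top t)
  | succ m => exact ⟨_, ⟨f⟩⟩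

theorem locExt_iff {K : Type u} [Field K] (h2 : (2 : K) ≠ 0) [Finite (SqClass K)] :
    LocExt K ↔ (QStr.ofField K).IsLocal ∨ ∃ T : QStr.{u}, Nonempty ((QStr.ofField K).Iso T.ext) := by
  have : Finite (QStr.ofField K).G := inferInstanceAs (Finite (SqClass K))
  constructor
  · rintro (h | ⟨t, ht⟩)
    · exact Or.inl h
    · exact Or.inr (ext_of_birigid (QStr.ofField_axioms K h2) ht)
  · rintro (h | ⟨T, ⟨f⟩⟩)
    · exact Or.inl h
    · exact Or.inr (birigid_of_ext (QStr.ofField_axioms K h2).sq f)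

end Pool.Agent.GoReal
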