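import Pool.Agent.GoReal.Quad

/-!
# Pairs of classes of a quadratic extension become split after translation by classes of the base
-/

namespace Pool.Agent.GoReal

open Pool.Agent.Hhelper2 Pool.Agent.Hhelper2.QuadExt Pool.Agent.Hhelper2.Tower Pool.Agent.KRad
open Additive Module

universe u

/-- Lemma S. -/
theorem lemmaS {K E : Type u} [Field K] [Field E] [Algebra K E] (h2 : (2 : K) ≠ 0)
    (hfin : finrank K E = 2) (y w : SqClass E) :
    ∃ f h : SqClass K, FieldSplit E (y * gres K E f) (w * gres K E h) := by
  obtain ⟨a, α, hα, hns⟩ := exists_sqrt (K := K) (E := E) h2 hfin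
  have hco := (Biquad.coords hfin (a : K) α hα hns).1
  have h2E : (2 : E) ≠ 0 := by
    intro h
    apply h2
    apply (algebraMap K E).injective
    rw [map_ofNat, h, map_zero]
  have hax := QStr.ofField_axioms E h2E
  obtain ⟨y, rfl⟩ := exists_rep y
  obtain ⟨w, rfl⟩ := exists_rep w
  obtain ⟨p, q, hpq⟩ := hco (y : E)
  obtain ⟨r, s, hrs⟩ := hco ((y : E) * w)
  have hy0 : (y : E) ≠ 0 := y.ne_zero
  have hw0 : (w : E) ≠ 0 := w.ne_zero
  by_cases hq : q = 0
  · -- `y` comes from the base field
    rw [hq, map_zero, zero_mul, add_zero] at hpq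
    have hp0 : p ≠ 0 := by
      rintro rfl
      rw [map_zero] at hpq
      exact hy0 hpq
    refine ⟨sqClass (Units.mk0 p hp0), 1, ?_⟩
    have h1 : sqClass y * gres K E (sqClass (Units.mk0 p hp0)) = 1 := by
      rw [Biquad.gres_mk, ← QuotientGroup.mk_mul, one_iff]
      refine ⟨y, ?_⟩
      rw [Units.val_mul, pow_two]
      congr 1
      exact hpq.symm
    rw [h1]
    exact hax.symm _ _ (hax.one _)
  by_cases hs : s = 0
  · -- `y w` comes from the base field
    rw [hs, map_zero, zero_mul, add_zero] at hrs
    have hr0 : r ≠ 0 := by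
      rintro rfl
      rw [map_zero] at hrs
      exact mul_ne_zero hy0 hw0 hrs
    refine ⟨1, sqClass (-Units.mk0 r hr0), ?_⟩
    have h1 : sqClass w * gres K E (sqClass (-Units.mk0 r hr0)) = sqClass (-1) * sqClass y := by
      rw [Biquad.gres_mk, ← QuotientGroup.mk_mul, ← QuotientGroup.mk_mul, FieldAx.sqClass_eq]
      refine ⟨w⁻¹, ?_⟩
      ext
      have e1 : algebraMap K E r = y * w := hrs.symm
      simp only [Units.val_mul, Units.val_neg, Units.val_one, Units.val_pow_eq_pow_val,
        Units.val_inv_eq_inv_val, Units.coe_map, MonoidHom.coe_coe, RingHom.toMonoidHom_eq_coe,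
        Units.val_mk0, map_neg, e1]
      field_simp
    rw [h1, map_one, mul_one]
    exact hax.neg _
  · -- the general case
    set h : K := q / s with hh
    have hh0 : h ≠ 0 := div_ne_zero hq hs
    have e1 : (y : E) - (y : E) * w * algebraMap K E h = algebraMap K E (p - r * h) := by
      rw [hrs, hpq]
      have : q - s * h = 0 := by rw [hh]; field_simp; ring
      have e3 : algebraMap K E q = algebraMap K E (s * h) := by
        congr 1
        linear_combination this
      rw [e3]
      simp only [map_sub, map_mul]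
      ring
    by_cases hf : p - r * h = 0
    · refine ⟨1, sqClass (Units.mk0 h hh0), ?_⟩
      have h1 : sqClass w * gres K E (sqClass (Units.mk0 h hh0)) = 1 := by
        rw [Biquad.gres_mk, ← QuotientGroup.mk_mul, one_iff]
        refine ⟨1, ?_⟩
        rw [hf, map_zero] at e1
        have e4 : (y : E) * (1 - w * algebraMap K E h) = 0 := by linear_combination e1
        have e5 := (mul_eq_zero.1 e4).resolve_left hy0
        have e6 : (w : E) * algebraMap K E h = 1 := by linear_combination -e5
        rw [one_pow, Units.val_mul]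
        exact e6
      rw [h1]
      exact hax.one _
    · refine ⟨sqClass (Units.mk0 _ hf), sqClass (Units.mk0 h hh0), ?_⟩
      rw [Biquad.gres_mk, Biquad.gres_mk, ← QuotientGroup.mk_mul, ← QuotientGroup.mk_mul]
      refine ⟨_, _, rfl, rfl, (y : E)⁻¹, 1, ?_⟩
      have e2 : ((y * (Units.map (algebraMap K E).toMonoidHom (Units.mk0 _ hf)) : Eˣ) : E) =
          y * algebraMap K E (p - r * h) := rfl
      have e3 : ((w * (Units.map (algebraMap K E).toMonoidHom (Units.mk0 h hh0)) : Eˣ) : E) =
          w * algebraMap K E h := rfl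
      rw [e2, e3, ← e1]
      field_simp
      ring

end Pool.Agent.GoReal
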