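import Pool.Agent.GoReal.Core

/-!
# Going down for group extensions
-/

namespace Pool.Agent.GoReal

open Pool.Agent.Hhelper2 Pool.Agent.Hhelper2.QuadExt Pool.Agent.Hhelper2.Tower Pool.Agent.KRad
open Additive Module

universe u

/-- If a quadratic extension of a field without independent pairs has a birigid class, then so
does the field. -/
theorem bi_down {K E : Type u} [Field K] [Field E] [Algebra K E] (h2 : (2 : K) ≠ 0)
    [Finite (SqClass K)] (hfin : finrank K E = 2) (hK : Conn K) (hE : ∃ t, Bi E t) :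
    ∃ t, Bi K t := by
  obtain ⟨a, α, hα, hns⟩ := exists_sqrt (K := K) (E := E) h2 hfin
  obtain ⟨q, hq, -⟩ := exists_QG h2 hfin a α hα hns
  have hfE := finite_ext q.toQE
  have ha : sqClass a ≠ 1 := fun h => hns ((one_iff a).1 h)
  rcases core h2 q ha hE with h | ⟨hAe, hA, hB⟩
  · exact h
  by_contra hcon
  push Not at hcon
  set A : VV K := ofMul (sqClass a) with hAdef
  have hA0 : A ≠ 0 := ha
  have sA : sv K A + 1 = dd K := sv_of_two h2 hA0 hA
  -- a class `x` which is not rigid
  obtain ⟨x, hx0, hxA, hx⟩ : ∃ x : VV K, x ≠ 0 ∧ x ≠ A ∧ sv K (x + A) + 1 ≠ dd K := by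
    by_contra hc
    push Not at hc
    by_cases hex : ∃ x : VV K, x ≠ 0 ∧ x ≠ A
    · obtain ⟨x, hx0, hxA⟩ := hex
      apply hcon x
      have h3 := hc x hx0 hxA
      have h4 := hc (x + A) (fun h => hxA (Codim.eq_of_add_eq_zero h))
        (fun h => hx0 (by simpa using h))
      rw [add_assoc, Codim.add_self, add_zero] at h4
      rw [bi_iff h2, ← hAe]
      exact ⟨hx0, hxA, h4, h3⟩
    · push Not at hex
      apply hA0
      apply hK.radical h2
      rw [sv_eq_zero_iff h2]
      intro y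
      rw [hA]
      by_cases hy : y = 0
      · exact Or.inl hy
      · exact Or.inr (hex y hy)
  obtain ⟨x₀, hx₀⟩ := exists_rep (toMul x)
  have hxx : (ofMul (sqClass x₀) : VV K) = x := congrArg ofMul hx₀
  obtain ⟨L, F, _, _, _, _, _, p, r, s, hL, hF, hFL, hcomm⟩ := exists_over h2 hfin a α hα q hq ha x₀
    (fun h => hx0 (by rw [← hxx, h]; rfl)) (fun h => hxA (by rw [← hxx, h]))
  have hfF := finite_ext r.toQE
  have hfL := finite_ext p.toQE
  have hx₀1 : sqClass x₀ ≠ 1 := fun h => hx0 (by rw [← hxx, h]; rfl)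
  have hx₀a : sqClass x₀ ≠ sqClass a := fun h => hxA (by rw [← hxx, h])
  -- a class of `E` whose norm is `A`
  obtain ⟨ρ, hρ⟩ := range_nm' q.toQE ((hA A).2 (Or.inr rfl))
  have hout : ∀ v : VV K, ¬ ∃ y, ρ + lin q.res v = lin q.res y := by
    rintro v ⟨y, hy⟩
    have h3 := congrArg (lin q.nm) hy
    rw [map_add, nm_res', nm_res', add_zero, hρ] at h3
    exact hA0 h3
  have b1 := (bi_iff q.two_ne _).1 (hB _ (hout 0))
  rw [map_zero, add_zero] at b1
  have b2 := (bi_iff q.two_ne _).1 (hB _ (hout x))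
  -- in `L`
  have hpe : q.res (sqClass x₀) ≠ 1 := by
    intro h
    rcases (q.res_one _).1 h with h3 | h3
    · exact hx₀1 h3
    · exact hx₀a h3
  have hse : r.res (sqClass a) ≠ 1 := by
    intro h
    rcases (r.res_one _).1 h with h3 | h3
    · exact ha h3
    · exact hx₀a h3.symm
  have t1 := sv_step q.two_ne p.toQE ρ
  have t2 := finrank_ext q.two_ne p.toQE hpe
  have exx : (ofMul (q.res (sqClass x₀)) : VV E) = lin q.res x := by
    rw [← hxx]; rfl
  rw [exx] at t1 t2
  have eE : ee E = 0 := by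
    rw [← res_ee q.toQS, ← hAe]
    exact (res_zero_iff q.toQE A).2 (Or.inr rfl)
  have eL : ee L = 0 := by
    rw [← res_ee p.toQS, eE, map_zero]
  have hbL : Bi L (lin p.res ρ) := by
    rw [bi_iff p.two_ne, eL, add_zero]
    have h0 : lin p.res ρ ≠ 0 := by
      intro h
      rcases (res_zero_iff p.toQE ρ).1 h with h3 | h3
      · exact b1.1 h3
      · rw [exx] at h3
        exact hout 0 ⟨x, by rw [map_zero, add_zero]; exact h3⟩
    refine ⟨h0, h0, ?_, ?_⟩ <;> omega
  rcases core r.two_ne s hse ⟨_, hbL⟩ with h | ⟨h3, h4, -⟩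
  · rcases core h2 r hx₀1 h with h5 | ⟨h5, -⟩
    · obtain ⟨t, ht⟩ := h5
      exact hcon t ht
    · rw [hxx] at h5
      exact hxA (h5.trans hAe.symm)
  · have h5 := sv_of_two r.two_ne hse h4
    have u1 := sv_step h2 r.toQE A
    have u2 := finrank_ext h2 r.toQE hx₀1
    have e1 : lin r.res A = ofMul (r.res (sqClass a)) := rfl
    rw [hxx] at u1 u2
    rw [e1] at u1
    apply hx
    rw [add_comm x A]
    omega

end Pool.Agent.GoReal
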