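import Pool.Agent.GoReal.LemmaS

/-!
# Quadratic extensions with lemma S, and the square over a quadratic extension
-/

namespace Pool.Agent.GoReal

open Pool.Agent.Hhelper2 Pool.Agent.Hhelper2.QuadExt Pool.Agent.Hhelper2.Tower Pool.Agent.KRad
open Additive Module

universe u

/-- The data of a quadratic extension, with lemma S. -/
structure QG (K E : Type u) [Field K] [Field E] (a : SqClass K) extends QS K E a where
  lemS : ∀ y w : SqClass E, ∃ f h : SqClass K, FieldSplit E (y * res f) (w * res h)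

theorem exists_QG {K E : Type u} [Field K] [Field E] [Algebra K E] (h2 : (2 : K) ≠ 0)
    (hfin : finrank K E = 2) (a : Kˣ) (α : E) (hα : α ^ 2 = algebraMap K E a)
    (hns : ¬ ∃ t : K, (a : K) = t ^ 2) :
    ∃ q : QG K E (sqClass a), q.res = gres K E ∧ q.nm = gnm K E := by
  obtain ⟨q, h1, h3⟩ := exists_QS h2 hfin a α hα hns
  exact ⟨⟨q, fun y w => by rw [h1]; exact lemmaS h2 hfin y w⟩, h1, h3⟩

/-- The second quadratic extension in a biquadratic extension. -/
theorem exists_over {K E : Type u} [Field K] [Field E] [Algebra K E] (h2 : (2 : K) ≠ 0)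
    (hfin : finrank K E = 2) (a : Kˣ) (α : E) (hα : α ^ 2 = algebraMap K E a)
    (q : QG K E (sqClass a)) (hq : q.res = gres K E) (ha : sqClass a ≠ 1)
    (x : Kˣ) (hx : sqClass x ≠ 1) (hxa : sqClass x ≠ sqClass a) :
    ∃ (L F : Type u) (_ : Field L) (_ : Field F) (_ : Algebra E L) (_ : Algebra K F)
      (_ : Algebra F L) (p : QG E L (q.res (sqClass x))) (r : QG K F (sqClass x))
      (s : QG F L (r.res (sqClass a))),
      finrank E L = 2 ∧ finrank K F = 2 ∧ finrank F L = 2 ∧
      (∀ z, p.res (q.res z) = s.res (r.res z)) := by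
  have hnx : ¬ ∃ t : K, (x : K) = t ^ 2 := fun h => hx ((one_iff x).2 h)
  have hnxE : ¬ ∃ t : E, algebraMap K E (x : K) = t ^ 2 := by
    intro h
    have h1 : q.res (sqClass x) = 1 := by
      rw [hq, Biquad.gres_mk, one_iff]
      exact h
    rcases (q.res_one _).1 h1 with h3 | h3
    · exact hx h3
    · exact hxa h3
  have hf2 : Fact (∀ r : E, r ^ 2 ≠ algebraMap K E (x : K) + 0 * r) :=
    ⟨fun r hr => hnxE ⟨r, by rw [hr]; ring⟩⟩
  obtain ⟨L, _, _, _, _, ξ, hL, hKL, hξ⟩ : ∃ (L : Type u) (_ : Field L) (_ : Algebra E L)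
      (_ : Algebra K L) (_ : IsScalarTower K E L) (ξ : L), finrank E L = 2 ∧ finrank K L = 4 ∧
      ξ ^ 2 = algebraMap E L (algebraMap K E x) := by
    have hL : finrank E (QuadraticAlgebra E (algebraMap K E (x : K)) 0) = 2 :=
      QuadraticAlgebra.finrank_eq_two ..
    have hKL := finrank_mul_finrank K E (QuadraticAlgebra E (algebraMap K E (x : K)) 0)
    rw [hfin, hL] at hKL
    refine ⟨QuadraticAlgebra E (algebraMap K E (x : K)) 0, inferInstance, inferInstance,
      inferInstance, inferInstance, ⟨0, 1⟩, hL, hKL.symm, ?_⟩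
    rw [← elt_sqrt (a := algebraMap K E (x : K)) 1, one_pow, mul_one]
  have hξK : ξ ^ 2 = algebraMap K L (x : K) := by
    rw [hξ, ← IsScalarTower.algebraMap_apply]
  have k1 := Biquad.finrank_adjoin (x : K) ξ hξK hnx
  have hξ₁ : ξ ∈ IntermediateField.adjoin K {ξ} := IntermediateField.mem_adjoin_simple_self K ξ
  generalize IntermediateField.adjoin K {ξ} = F at k1 hξ₁
  have hFL : finrank F L = 2 := by
    have := finrank_mul_finrank K F L
    rw [k1, hKL] at this
    omega
  obtain ⟨r, r1, r2⟩ := exists_QG h2 k1 x ⟨ξ, hξ₁⟩ (by ext; exact hξK) hnx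
  -- the extension `L / E`
  obtain ⟨p, p1, p2⟩ := exists_QG q.two_ne hL (Units.map (algebraMap K E).toMonoidHom x) ξ hξ hnxE
  -- the extension `L / F`
  have hnaF : ¬ ∃ t : F, algebraMap K F (a : K) = t ^ 2 := by
    intro h
    have h1 : r.res (sqClass a) = 1 := by
      rw [r1, Biquad.gres_mk, one_iff]
      exact h
    rcases (r.res_one _).1 h1 with h3 | h3
    · exact ha h3
    · exact hxa h3.symm
  obtain ⟨s, s1, s2⟩ := exists_QG r.two_ne hFL (Units.map (algebraMap K F).toMonoidHom a)
    (algebraMap E L α) (by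
      rw [← map_pow, hα]
      show algebraMap E L (algebraMap K E (a : K)) = algebraMap F L (algebraMap K F (a : K))
      rw [← IsScalarTower.algebraMap_apply, ← IsScalarTower.algebraMap_apply]) hnaF
  have e1 : sqClass (Units.map (algebraMap K E).toMonoidHom x) = q.res (sqClass x) := by
    rw [hq]; rfl
  have e2 : sqClass (Units.map (algebraMap K F).toMonoidHom a) = r.res (sqClass a) := by
    rw [r1]; rfl
  obtain ⟨p', hp'⟩ : ∃ p' : QG E L (q.res (sqClass x)), p'.res = gres E L := by
    rw [← e1]; exact ⟨p, p1⟩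
  obtain ⟨s', hs'⟩ : ∃ s' : QG F L (r.res (sqClass a)), s'.res = gres F L := by
    rw [← e2]; exact ⟨s, s1⟩
  refine ⟨L, F, inferInstance, inferInstance, inferInstance, inferInstance, inferInstance,
    p', r, s', hL, k1, hFL, ?_⟩
  intro z
  rw [hp', hq, hs', r1, Biquad.gres_gres, Biquad.gres_gres]

end Pool.Agent.GoReal
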